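import Mathlib
import Pool.Agent.W1.PatComp
import Pool.Agent.TH657.PatH

/-!
# MP_49a8fd_lc — computing the inclusion depth over alphabets with at least 7 letters
-/

namespace Pool.Agent.Results.MP_49a8fd_lc.SevenLettersAlgorithm

open Pool.Agent.PatDepth Pool.Agent.H344R3.PD Pool.Agent.W1.Pat

/-- The function `p ↦ 2|p| - #var(p) - 1` on patterns (letters coded by numbers) is primitive
recursive, and for every alphabet `{0, ..., k-1}` with `k ≥ 7` letters it gives the inclusion
depth of every non-empty pattern. -/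
theorem result :
    (Primrec fun p : List (ℕ ⊕ ℕ) => 2 * p.length - nvar p - 1) ∧
    ∀ k : ℕ, 7 ≤ k → ∀ p : List (ℕ ⊕ Fin k), p ≠ [] →
      IsGreatest {n | HasChain p n}
        (2 * (p.map (Sum.map id Fin.val)).length - nvar (p.map (Sum.map id Fin.val)) - 1) := by
  refine ⟨primrec_formula, fun k hk p h0 => ?_⟩
  have h1 : Nontrivial (Fin k) := Fin.nontrivial_iff_two_le.mpr (by omega)
  have h2 : (2 * 1 + 1) ^ (2 * 1 + 1) ≤ (2 * 1) ^ (2 * 1) * Fintype.card (Fin k) ^ 1 := by
    rw [Fintype.card_fin]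
    norm_num
    omega
  rw [nvar_map, List.length_map]
  constructor
  · obtain ⟨c, h1, h2, h3, h4⟩ := (chain_greatest h0).1
    exact ⟨c, h1, h2, h3, fun i hi => (h4 i hi).1⟩
  · intro n hn
    have := Pool.Agent.TH657.Pat.depth_le3 (c := 1) le_rfl h2 hn
    omega

end Pool.Agent.Results.MP_49a8fd_lc.SevenLettersAlgorithm
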